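import Pool.Agent.H.MP_4648ce_an.D

set_option autoImplicit false
open Set Filter Topology

namespace Pool.Agent.Results.MP_98e33a_an.Full

/-- The asymptotic set of a point under a map of the unit interval. -/
def AS (L : ℝ → ℝ) (x : ℝ) : Set ℝ :=
  {y ∈ Icc (0 : ℝ) 1 | Tendsto (fun n : ℕ => |L^[n] x - L^[n] y|) atTop (𝓝 0)}

/-- The level set of the dimension of asymptotic sets. -/
def Theta (L : ℝ → ℝ) (α : ENNReal) : Set ℝ := {x ∈ Icc (0 : ℝ) 1 | dimH (AS L x) = α}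

theorem result (L : ℝ → ℝ) (L0 : L 0 = 0) (L1 : L 1 = 0)
    (hL : ∀ n : ℕ, 1 ≤ n → ∀ x ∈ Ico (1 / (n + 1) : ℝ) (1 / n), L x = n * (n + 1) * x - n) :
    dimH (Theta L (1 / 2)) = 1 := by
  have k : ∀ y ∈ Icc (0 : ℝ) 1, y ≠ 0 → y ≠ 1 → ∃ a : ℕ, 1 ≤ (a + 2) * y ∧ (a + 1) * y ≤ 1 ∧
      L y = (a + 1) * (a + 2) * y - (a + 1) := fun y hy e e' => by
    have y0 : 0 < y := hy.1.lt_of_ne' e
    have n1 : 2 ≤ ⌈1 / y⌉₊ := Nat.lt_ceil.2 (by rw [lt_div_iff₀ y0]; simpa using hy.2.lt_of_ne e')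
    obtain ⟨a, ha⟩ := Nat.exists_eq_add_of_le' n1
    have h1 := Nat.ceil_lt_add_one (a := 1 / y) (by positivity)
    have h2 := Nat.le_ceil (1 / y)
    rw [ha] at h1 h2
    push_cast at h1 h2
    rw [div_le_iff₀ y0] at h2
    rw [← sub_lt_iff_lt_add, lt_div_iff₀ y0] at h1
    have := hL (a + 1) (by simp) y ⟨by rw [div_le_iff₀ (by positivity)]; push_cast; linarith,
      by rw [lt_div_iff₀ (by positivity)]; push_cast; linarith⟩
    push_cast at this
    exact ⟨a, h2, by linarith, by linarith⟩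
  refine (Pool.Agent.H.MP_4648ce_an.sysL L0 (fun y hy => ?_) (fun a x hx => ?_) fun y hy e => ?_).luroth
  · rcases eq_or_ne y 0 with rfl | e
    · simp [L0]
    rcases eq_or_ne y 1 with rfl | e'
    · simp [L1]
    obtain ⟨a, h1, h2, h3⟩ := k y hy e e'
    have : (0 : ℝ) ≤ a := a.cast_nonneg
    rw [h3]; constructor <;> nlinarith
  · have := hL (a + 1) (by simp) x (by push_cast; exact ⟨by rw [add_assoc, one_add_one_eq_two]; exact hx.1.le, hx.2⟩)
    push_cast at this; linarith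
  · exact (k y hy (by rintro rfl; exact e L0) (by rintro rfl; exact e L1)).imp fun a h => h.2.2

end Pool.Agent.Results.MP_98e33a_an.Full
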